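import Pool.Agent.HBOne.FinalAll

/-!
# The set of indicators of the class `E_ρ`, for every order `ρ` in `(0, 2)`

The conditions are defined in `Pool.Agent.HBInf.Defs` (`CondT`, `TT`, `Dom`, `CondA`, `CondC`, `ExcZero`, `ExcOne`) and
`Pool.Agent.HBOne.Defs` (`CondOne`), the class and the indicator in `Pool.Agent.HBInd.Defs`.
-/

open Set Real

/-- For `0 < ρ < 2` a function `h : ℝ → [-∞, ∞]` is the indicator of some `f` in the class `E_ρ` if and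
only if it is `2π`-periodic, `ρ`-trigonometrically convex, and
* `ρ ≤ 1/2`: `h θ ≤ h (-θ)` on `(0, π)` and `h` is not identically `-∞`;
* `1/2 < ρ < 1`: the domination inequalities `CondA 0` and `CondC`, or the exceptional case;
* `ρ = 1`: `CondOne c` for some `c ≥ 0`;
* `1 < ρ`: the domination inequalities `CondA 1` and `CondC`, or the exceptional case. -/
theorem Pool.Agent.Results.MP_41a3aa_an.Complete.result (ρ : ℝ) (hρ : 0 < ρ) (hρ2 : ρ < 2)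
    (h : ℝ → EReal) :
    (∃ f : ℂ → ℂ, HBInd.InClass ρ f ∧ ∀ θ, HBInd.ind ρ f θ = h θ) ↔
      (∀ θ, h (θ + 2 * π) = h θ) ∧ HBInf.CondT ρ h ∧
        (ρ ≤ 1 / 2 → (∀ θ ∈ Ioo 0 π, h θ ≤ h (-θ)) ∧ ∃ θ, h θ ≠ ⊥) ∧
        (1 / 2 < ρ → ρ < 1 → (HBInf.CondA 0 ρ h ∧ HBInf.CondC ρ h) ∨ HBInf.ExcZero ρ h) ∧
        (ρ = 1 → ∃ c : ℝ, 0 ≤ c ∧ HBOne.CondOne c h) ∧
        (1 < ρ → (HBInf.CondA 1 ρ h ∧ HBInf.CondC ρ h) ∨ HBInf.ExcOne ρ h) :=
  HBOne.all_iff hρ hρ2 h
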