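import Pool.Agent.HBInd.Final

/-!
# Non-negative indicators of functions of Hermite-Biehler type of order less than one
-/

open Set Real

/-- For `0 < ρ < 1` a non-negative function `h : ℝ → ℝ` is the indicator of some `f` in the class
`E_ρ` if and only if it is `2π`-periodic, `ρ`-trigonometrically convex and `h θ ≤ h (-θ)` for
`0 < θ < π`. -/
theorem Pool.Agent.Results.MP_41a3aa_an.NonnegBelowOne.result (ρ : ℝ) (hρ : 0 < ρ)
    (hρ1 : ρ < 1) (h : ℝ → ℝ) (h0 : ∀ θ, 0 ≤ h θ) :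
    (∃ f : ℂ → ℂ, HBInd.InClass ρ f ∧ ∀ θ, HBInd.ind ρ f θ = (h θ : EReal)) ↔
      (∀ θ, h (θ + 2 * π) = h θ) ∧ HBInd.TrigConvex ρ h ∧ ∀ θ ∈ Ioo 0 π, h θ ≤ h (-θ) :=
  HBInd.nonneg_iff hρ hρ1 h0
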